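import Pool.Agent.R87.Builder

/-!
# In the degree-preserving Builder-Chooser game every clique can be forced from a
triangle-free graph
-/

set_option autoImplicit false

namespace Pool.Agent.Results.MP_f79b02_co.CliquesForced

open Pool.Agent.R87.Builder

/-- For every `k ≥ 3` there are a finite triangle-free graph `G` and a number `t` such that Builder
has a strategy which guarantees that the graph after `t` rounds from `G` contains `K_k`. -/
theorem result : ∀ k : ℕ, 3 ≤ k → ∃ (V : Type) (_ : Fintype V) (G : SimpleGraph V),
    G.CliqueFree 3 ∧ ∃ t, Forces k t V G := by
  intro k _
  exact forces_all k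

end Pool.Agent.Results.MP_f79b02_co.CliquesForced
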