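import Pool.Agent.R87.Builder2

/-!
# The forcing time of cliques in the degree-preserving Builder-Chooser game is a tower function
-/

set_option autoImplicit false

namespace Pool.Agent.Results.MP_f79b02_co.TowerGrowth

open Pool.Agent.R87.Builder

/-- For every `k ≥ 6`: Builder can force `K_k` from some finite triangle-free graph in a bounded
number of rounds, and the least number `rho k` of rounds in which this is possible satisfies
`tow (k - 4) < rho k < tow (k - 3)`, where `tow n` is the tower of twos of height `n`. -/
theorem result : ∀ k : ℕ, 6 ≤ k →
    (∃ t, ∃ (V : Type) (_ : Fintype V) (G : SimpleGraph V), G.CliqueFree 3 ∧ Forces k t V G) ∧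
    tow (k - 4) < rho k ∧ rho k < tow (k - 3) :=
  fun k hk => rho_bounds k hk

end Pool.Agent.Results.MP_f79b02_co.TowerGrowth
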